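import Pool.Agent.Helper46.NU.Goals1

set_option autoImplicit false

open MeasureTheory Filter Topology Set
open scoped ENNReal

noncomputable section

namespace NU.PkCCC

/-- the constant clopen function -/
def cfFalse (S : Sys) : CF S := ⟨fun _ => false, ∅, fun _ _ _ => rfl⟩

theorem ccc (star : G_STAR) (bai : G_BAI) (mz : G_MZ) : G_CCC := by
  intro S ι K hK hnon hdis
  classical
  choose δ hδ0 hδ using fun i => star S (K i) (hK i) (hnon i)
  have hB : BaireSpace (Ph S) := bai (S.C × ℕ) (CF S)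
  have hN : Nonempty (Ph S) := ⟨fun _ => cfFalse S⟩
  -- the levels
  let J : ℕ → Set ι := fun m => {i | ((m : ℝ≥0∞) + 1)⁻¹ ≤ δ i}
  have hcov : (⋃ m, J m) = Set.univ := by
    rw [Set.eq_univ_iff_forall]
    intro i
    obtain ⟨n, hn⟩ := ENNReal.exists_inv_nat_lt (hδ0 i)
    rw [Set.mem_iUnion]
    refine ⟨n, ?_⟩
    change ((n : ℝ≥0∞) + 1)⁻¹ ≤ δ i
    exact le_trans (ENNReal.inv_le_inv.mpr (le_add_right le_rfl)) hn.le
  have hfin : ∀ m, (J m).Finite := by
    intro m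
    by_contra hinf
    have hinf' : (J m).Infinite := hinf
    obtain ⟨T, hTJ, hTc⟩ := hinf'.exists_subset_card_eq (m + 2)
    have h1 : ∀ᶠ φ in residual (Ph S), ∀ i ∈ T, δ i ≤ pr S φ (K i) := by
      rw [Filter.eventually_all_finset]
      intro i _
      exact hδ i
    have h2 : ∀ᶠ φ in residual (Ph S), ∀ i ∈ T, ∀ j ∈ T, i ≠ j → pr S φ (K i ∩ K j) = 0 := by
      rw [Filter.eventually_all_finset]
      intro i _
      rw [Filter.eventually_all_finset]
      intro j _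
      by_cases hij : i = j
      · exact Filter.Eventually.of_forall fun φ h => absurd hij h
      · filter_upwards [hdis i j hij] with φ hφ _ using hφ
    have hne : (residual (Ph S)).NeBot := by
      rw [Filter.neBot_iff]
      intro hbot
      have hemp : (∅ : Set (Ph S)) ∈ residual (Ph S) := by rw [hbot]; exact Filter.mem_bot
      have hd := dense_of_mem_residual hemp
      have := hd.nonempty
      exact Set.not_nonempty_empty this
    obtain ⟨φ, hφ1, hφ2⟩ := (h1.and h2).exists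
    have hmeas : ∀ i, MeasurableSet {ω : Om S | zz S φ ω ∈ K i} := fun i => mz S φ (hK i)
    have hsum : PP S (⋃ i ∈ T, {ω : Om S | zz S φ ω ∈ K i}) =
        ∑ i ∈ T, PP S {ω : Om S | zz S φ ω ∈ K i} := by
      apply measure_biUnion_finset₀
      · intro i hi j hj hij
        change PP S ({ω : Om S | zz S φ ω ∈ K i} ∩ {ω : Om S | zz S φ ω ∈ K j}) = 0
        exact hφ2 i hi j hj hij
      · intro i _
        exact (hmeas i).nullMeasurableSet
    have hle1 : ∑ i ∈ T, PP S {ω : Om S | zz S φ ω ∈ K i} ≤ 1 := by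
      rw [← hsum]
      exact prob_le_one
    have hge : ((m : ℝ≥0∞) + 2) * ((m : ℝ≥0∞) + 1)⁻¹ ≤
        ∑ i ∈ T, PP S {ω : Om S | zz S φ ω ∈ K i} := by
      calc ((m : ℝ≥0∞) + 2) * ((m : ℝ≥0∞) + 1)⁻¹ = ∑ i ∈ T, ((m : ℝ≥0∞) + 1)⁻¹ := by
            rw [Finset.sum_const, hTc, nsmul_eq_mul]
            push_cast
            rfl
        _ ≤ ∑ i ∈ T, PP S {ω : Om S | zz S φ ω ∈ K i} := by
            apply Finset.sum_le_sum
            intro i hi
            exact le_trans (hTJ hi) (hφ1 i hi)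
    have h3 : ((m : ℝ≥0∞) + 2) * ((m : ℝ≥0∞) + 1)⁻¹ ≤ 1 := hge.trans hle1
    have h4 : ((m : ℝ≥0∞) + 2) ≤ (m : ℝ≥0∞) + 1 := by
      have hne0 : ((m : ℝ≥0∞) + 1) ≠ 0 := by positivity
      have hnt : ((m : ℝ≥0∞) + 1) ≠ ⊤ := by finiteness
      calc ((m : ℝ≥0∞) + 2) = ((m : ℝ≥0∞) + 2) * (((m : ℝ≥0∞) + 1)⁻¹ * ((m : ℝ≥0∞) + 1)) := by
            rw [ENNReal.inv_mul_cancel hne0 hnt, mul_one]
        _ = (((m : ℝ≥0∞) + 2) * ((m : ℝ≥0∞) + 1)⁻¹) * ((m : ℝ≥0∞) + 1) := by ring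
        _ ≤ 1 * ((m : ℝ≥0∞) + 1) := by gcongr
        _ = (m : ℝ≥0∞) + 1 := one_mul _
    have h5 : m + 2 ≤ m + 1 := by exact_mod_cast h4
    omega
  have hcount : (Set.univ : Set ι).Countable := by
    rw [← hcov]
    exact Set.countable_iUnion fun m => (hfin m).countable
  exact Set.countable_univ_iff.mp hcount

end NU.PkCCC
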