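import Pool.Agent.Helper46.NU.Names
import Pool.Agent.Helper46.FL.Lib

set_option autoImplicit false

open MeasureTheory Filter Topology Set

noncomputable section

namespace NU.PkIJ1

open Pool.Agent.Helper97.Ku

lemma uf_bot {L : Type} [CompleteBooleanAlgebra L] (U : UF L) : ¬ U.mem (⊥ : L) := by
  intro h
  have h1 : U.mem ((⊤ : L)ᶜ) := by rw [compl_top]; exact h
  exact U.compl.mp h1 U.top

lemma uf_sup {L : Type} [CompleteBooleanAlgebra L] (U : UF L) {a b : L} (h : U.mem (a ⊔ b)) :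
    U.mem a ∨ U.mem b := by
  by_contra hc
  rw [not_or] at hc
  have h1 : U.mem (aᶜ ⊓ bᶜ) := U.inf (U.compl.mpr hc.1) (U.compl.mpr hc.2)
  rw [← compl_sup] at h1
  exact U.compl.mp h1 h

lemma uf_fsup {L : Type} [CompleteBooleanAlgebra L] (U : UF L) {α : Type} (s : Finset α)
    (g : α → L) (h : U.mem (s.sup g)) : ∃ i ∈ s, U.mem (g i) := by
  classical
  induction s using Finset.induction_on with
  | empty =>
    rw [Finset.sup_empty] at h
    exact absurd h (uf_bot U)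
  | insert a s _ ih =>
    rw [Finset.sup_insert] at h
    rcases uf_sup U h with h1 | h1
    · exact ⟨a, Finset.mem_insert_self _ _, h1⟩
    · obtain ⟨i, hi, hg⟩ := ih h1
      exact ⟨i, Finset.mem_insert_of_mem hi, hg⟩

lemma iffV_top_le {L : Type} [CompleteBooleanAlgebra L] (a : L) : iffV a ⊤ ≤ a := by
  unfold iffV
  rw [top_himp]
  exact inf_le_right

theorem ij1 (_nat : G_NAT) (fn1 : G_FN1) (fn2 : G_FN2) (ex1 : G_EX1) : G_IJ1 := by
  intro L _ P n k T hcard
  classical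
  by_contra hne
  let Q : BSet L → L := fun u => subV u (nn n) ⊓ ⨅ m : BSet L, (m.mem u ⇨ (m.mem (nn k))ᶜ)
  let A1 : BSet L → L := fun f => (⨅ a : BSet L, (P a ⇨ ⨆ b : BSet L, (Q b ⊓
      ⨅ c : BSet L, iffV (apV f a c) (c.eq b))))
  let A2 : BSet L → L := fun f => ⨅ a : BSet L, ⨅ a' : BSet L, ⨅ b : BSet L,
      ((P a ⊓ (P a' ⊓ (apV f a b ⊓ apV f a' b))) ⇨ a.eq a')
  let B : L := ⨅ t ∈ T, P (fsN t)
  have hinj : injV P Q = ⨆ f : BSet L, (A1 f ⊓ A2 f) := rfl
  have hex : ∃ f : BSet L, (A1 f ⊓ A2 f) ⊓ B ≠ ⊥ := by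
    by_contra hc
    push Not at hc
    apply hne
    change injV P Q ⊓ B = ⊥
    rw [hinj, iSup_inf_eq]
    exact iSup_eq_bot.mpr hc
  obtain ⟨f, hf⟩ := hex
  obtain ⟨U, hU⟩ := Pool.Agent.Helper46.FL.ufex.{0} L _ hf
  have hU1 : U.mem (A1 f) := U.mono (inf_le_left.trans inf_le_left) hU
  have hU2 : U.mem (A2 f) := U.mono (inf_le_left.trans inf_le_right) hU
  have hUB : U.mem B := U.mono inf_le_right hU
  have hP : ∀ t ∈ T, U.mem (P (fsN t)) := fun t ht => U.mono (iInf₂_le t ht) hUB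
  have hQext : BSet.Ext Q := by
    apply BSet.Ext.inf
    · exact ((ex1 L).1 (nn n)).1
    · apply BSet.Ext.iInf
      intro m
      exact BSet.Ext.himp (BSet.Ext.mem_right m) (BSet.Ext.const _)
  have hQfs : ∀ u : Finset ℕ, Q (fsN u) = bo (u ⊆ Finset.Ico k n) := fun u =>
    (fn2 L).2.2.1 u k n
  have hchoice : ∀ t ∈ T, ∃ u : Finset ℕ, u ⊆ Finset.Ico k n ∧
      U.mem (apV f (fsN t) (fsN u)) := by
    intro t ht
    have hapext : BSet.Ext (fun x => apV f (fsN t) x) := ((ex1 L).2.1 f (fsN t)).2.2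
    have hext : BSet.Ext (fun x => Q x ⊓ apV f (fsN t) x) := BSet.Ext.inf hQext hapext
    have h1 : U.mem (⨆ b : BSet L, (Q b ⊓ ⨅ c : BSet L, iffV (apV f (fsN t) c) (c.eq b))) := by
      have h2 : U.mem (P (fsN t) ⇨ ⨆ b : BSet L, (Q b ⊓
          ⨅ c : BSet L, iffV (apV f (fsN t) c) (c.eq b))) := U.mono (iInf_le _ (fsN t)) hU1
      have h3 := U.inf (hP t ht) h2
      exact U.mono inf_himp_le h3
    have h4 : (⨆ b : BSet L, (Q b ⊓ ⨅ c : BSet L, iffV (apV f (fsN t) c) (c.eq b))) ≤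
        (Finset.range n).powerset.sup (fun u => Q (fsN u) ⊓ apV f (fsN t) (fsN u)) := by
      apply iSup_le
      intro b
      have h5 : (⨅ c : BSet L, iffV (apV f (fsN t) c) (c.eq b)) ≤ apV f (fsN t) b := by
        refine (iInf_le _ b).trans ?_
        rw [BSet.eq_refl]
        exact iffV_top_le _
      have h6 : Q b ≤ ⨆ u : Finset ℕ, ⨆ _ : u ⊆ Finset.range n, b.eq (fsN u) :=
        inf_le_left.trans ((fn1 L).2.2.2 n b)
      have h7 : Q b ⊓ (⨅ c : BSet L, iffV (apV f (fsN t) c) (c.eq b)) ≤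
          (⨆ u : Finset ℕ, ⨆ _ : u ⊆ Finset.range n, b.eq (fsN u)) ⊓
            (Q b ⊓ apV f (fsN t) b) :=
        le_inf (inf_le_left.trans h6) (inf_le_inf_left _ h5)
      refine h7.trans ?_
      rw [iSup_inf_eq]
      apply iSup_le
      intro u
      rw [iSup_inf_eq]
      apply iSup_le
      intro hu
      refine (hext b (fsN u)).trans ?_
      exact Finset.le_sup (f := fun u => Q (fsN u) ⊓ apV f (fsN t) (fsN u))
        (Finset.mem_powerset.mpr hu)
    obtain ⟨u, _, hu2⟩ := uf_fsup U _ _ (U.mono h4 h1)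
    refine ⟨u, ?_, U.mono inf_le_right hu2⟩
    have h8 : U.mem (Q (fsN u)) := U.mono inf_le_left hu2
    rw [hQfs u] at h8
    by_contra hnot
    rw [bo_false hnot] at h8
    exact uf_bot U h8
  choose g hg1 hg2 using hchoice
  let G : Finset ℕ → Finset ℕ := fun t => if h : t ∈ T then g t h else ∅
  have hmaps : ∀ t ∈ T, G t ∈ (Finset.Ico k n).powerset := by
    intro t ht
    simp only [G, dif_pos ht]
    exact Finset.mem_powerset.mpr (hg1 t ht)
  have hcard' : (Finset.Ico k n).powerset.card < T.card := by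
    rw [Finset.card_powerset, Nat.card_Ico]
    exact hcard
  obtain ⟨t, ht, t', ht', hne', heq⟩ :=
    Finset.exists_ne_map_eq_of_card_lt_of_maps_to hcard' hmaps
  have hGt : U.mem (apV f (fsN t) (fsN (G t))) := by
    simp only [G, dif_pos ht]
    exact hg2 t ht
  have hGt' : U.mem (apV f (fsN t') (fsN (G t))) := by
    rw [heq]
    simp only [G, dif_pos ht']
    exact hg2 t' ht'
  have h9 : U.mem ((P (fsN t) ⊓ (P (fsN t') ⊓ (apV f (fsN t) (fsN (G t)) ⊓
      apV f (fsN t') (fsN (G t))))) ⇨ (fsN t : BSet L).eq (fsN t')) :=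
    U.mono ((iInf_le _ (fsN t)).trans ((iInf_le _ (fsN t')).trans (iInf_le _ (fsN (G t))))) hU2
  have h10 := U.inf (U.inf (hP t ht) (U.inf (hP t' ht') (U.inf hGt hGt'))) h9
  have h11 : U.mem ((fsN t : BSet L).eq (fsN t')) := U.mono inf_himp_le h10
  rw [(fn1 L).2.2.1 t t', bo_false hne'] at h11
  exact uf_bot U h11

end NU.PkIJ1
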